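import Pool.Agent.H63.Heat

set_option autoImplicit false
open MeasureTheory Real Set Filter Topology

namespace Pool.Agent.Results.MP_44d715_an.Coercive

/-- The state space `L_2(0,1)`. -/
noncomputable abbrev X := Lp ℝ 2 (volume.restrict (Ioo (0 : ℝ) 1))

/-- The input space `L_∞(ℝ_+, ℝ)`. -/
noncomputable abbrev U := Lp ℝ ⊤ (volume.restrict (Ioi (0 : ℝ)))

/-- `φ` is the mild solution map, written in the eigenbasis `sin (k π z)` of `A` (eigenvalue
`-(k π)^2`); the Dirichlet control operator acts on a test function `ψ` by `-ψ'(1)`. -/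
def IsMild (φ : ℝ → X → U → X) : Prop :=
  ∀ t : ℝ, 0 ≤ t → ∀ (x : X) (u : U) (k : ℕ), 1 ≤ k →
    ∫ z in Ioo (0 : ℝ) 1, φ t x u z * sin (k * π * z) =
      exp (-(k * π) ^ 2 * t) * (∫ z in Ioo (0 : ℝ) 1, x z * sin (k * π * z)) +
        ∫ s in (0 : ℝ)..t, exp (-(k * π) ^ 2 * (t - s)) * (-(k * π * cos (k * π))) * u s

def ClassK (g : ℝ → ℝ) : Prop := ContinuousOn g (Ici 0) ∧ StrictMonoOn g (Ici 0) ∧ g 0 = 0

def ClassKInf (g : ℝ → ℝ) : Prop := ClassK g ∧ Tendsto g atTop atTop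

open Pool.Agent.H63.Heat Pool.Agent.H63.Sine

theorem rep (u : U) : ∃ v : ℝ → ℝ, Good v ∧ (∀ s, |v s| ≤ ‖u‖) ∧ ∀ (n : ℕ) (t : ℝ), 0 ≤ t →
    √2 * ∫ s in (0 : ℝ)..t, exp (-((n + 1 : ℕ) * π) ^ 2 * (t - s)) *
      (-((n + 1 : ℕ) * π * cos ((n + 1 : ℕ) * π))) * u s = bet n * J n t v := by
  have hb : ∀ s, |max (-‖u‖) (min ‖u‖ (u s))| ≤ ‖u‖ := fun s =>
    abs_le.2 ⟨le_max_left _ _, max_le (by linarith [norm_nonneg u]) (min_le_left _ _)⟩
  refine ⟨fun s => max (-‖u‖) (min ‖u‖ (u s)), ⟨measurable_const.max (measurable_const.min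
    (Lp.stronglyMeasurable u).measurable), _, hb⟩, hb, fun n t ht => ?_⟩
  have h1 : ∀ᵐ s ∂(volume.restrict (Ioi (0 : ℝ))), ‖u s‖ ≤ ‖u‖ := by
    filter_upwards [ae_le_eLpNormEssSup (f := u) (μ := volume.restrict (Ioi (0 : ℝ)))] with s hs
    rw [Lp.norm_def, eLpNorm_exponent_top, ← toReal_enorm]
    exact ENNReal.toReal_mono (by simpa using (Lp.memLp u).2.ne) hs
  rw [bet, J, mul_assoc √2, ← intervalIntegral.integral_const_mul (-(mu n * cos (mu n))),
    intervalIntegral.integral_of_le ht, intervalIntegral.integral_of_le ht]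
  congr 1
  apply integral_congr_ae
  filter_upwards [ae_restrict_of_ae_restrict_of_subset (s := Ioc 0 t) Ioc_subset_Ioi_self h1]
    with s hs
  have := abs_le.1 hs
  rw [min_eq_right this.2, max_eq_right this.1, mu]; ring

theorem kinf {c : ℝ} (hc : 0 < c) : ClassKInf fun r => c * r ^ 8 :=
  ⟨⟨by fun_prop, fun a ha b _ h => mul_lt_mul_of_pos_left (pow_lt_pow_left₀ h ha (by norm_num)) hc,
    by simp⟩, (tendsto_pow_atTop (by norm_num)).const_mul_atTop hc⟩

theorem result : (∃ φ : ℝ → X → U → X, IsMild φ) ∧ ∀ φ : ℝ → X → U → X, IsMild φ →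
    ∃ (V : X → ℝ) (ψ₁ ψ₂ α σ : ℝ → ℝ), Continuous V ∧ (∀ x, 0 ≤ V x) ∧
      ClassKInf ψ₁ ∧ ClassKInf ψ₂ ∧ ClassKInf α ∧ ClassK σ ∧
      (∀ x, ψ₁ ‖x‖ ≤ V x ∧ V x ≤ ψ₂ ‖x‖) ∧
      ∀ (x : X) (u : U), limsup (fun h : ℝ => (((V (φ h x u) - V x) / h : ℝ) : EReal)) (𝓝[>] 0) ≤
        ((-α ‖x‖ + σ ‖u‖ : ℝ) : EReal) := by
  constructor
  · obtain ⟨Φ, hΦ⟩ := exists_sol
    choose r r1 _ r3 using rep
    refine ⟨fun t x u => Φ t x (r u), fun t ht x u k hk => ?_⟩
    obtain ⟨n, rfl⟩ := Nat.exists_eq_add_of_le' hk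
    have := hΦ t x (r u) ht (r1 u) n
    rw [co, inner_e, inner_e, ← r3 u n t ht, mu] at this
    apply mul_left_cancel₀ (by positivity : √2 ≠ 0)
    rw [this]; ring
  intro φ hφ
  obtain ⟨V, V1, V2, V3⟩ := exists_V
  refine ⟨V, fun r => 1 * r ^ 8, fun r => 128 * r ^ 8, fun r => 1 * r ^ 8, fun r => gam * r ^ 8,
    V1, fun x => le_trans (by positivity) (V2 x).1, kinf one_pos, kinf (by norm_num), kinf one_pos,
    (kinf gam_pos).1, fun x => by simpa using V2 x, fun x u => ?_⟩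
  obtain ⟨v, v1, v2, v3⟩ := rep u
  have key : ∀ h : ℝ, 0 < h → (V (φ h x u) - V x) / h ≤
      (exp (-h) - 1) / h * V x + gam * ‖u‖ ^ 8 := by
    intro h h0
    have k1 := V3 h x v (φ h x u) h0.le v1 fun n => by
      rw [co, inner_e, inner_e, hφ h h0.le x u _ (by omega), ← v3 n h h0.le, mu]; ring
    have k2 : En h v ≤ h * (exp h * ‖u‖ ^ 8) := by
      have := intervalIntegral.integral_mono_on h0.le (v1.ii continuous_exp 8 0 h)
        (intervalIntegrable_const (c := exp h * ‖u‖ ^ 8)) fun s hs => by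
          rw [← (by decide : Even 8).pow_abs (v s)]
          gcongr
          exacts [hs.2, v2 s]
      rwa [intervalIntegral.integral_const, sub_zero, smul_eq_mul] at this
    have k3 := mul_le_mul_of_nonneg_left k2 gam_pos.le
    have e1 : exp (-h) * exp h = 1 := by rw [← exp_add]; simp
    have k4 := mul_le_mul_of_nonneg_left (k1.trans (add_le_add_right k3 _)) (exp_pos (-h)).le
    rw [div_le_iff₀ h0, add_mul, mul_right_comm, div_mul_cancel₀ _ h0.ne']
    have k5 : exp (-h) * (exp h * V (φ h x u)) = V (φ h x u) := by rw [← mul_assoc, e1, one_mul]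
    have k6 : exp (-h) * (V x + gam * (h * (exp h * ‖u‖ ^ 8))) =
        exp (-h) * V x + gam * ‖u‖ ^ 8 * h := by linear_combination (gam * ‖u‖ ^ 8 * h) * e1
    linarith
  have d : HasDerivAt (fun h : ℝ => exp (-h)) (-1) 0 := by
    simpa using (hasDerivAt_neg (0 : ℝ)).exp
  have t1 : Tendsto (fun h : ℝ => (exp (-h) - 1) / h * V x + gam * ‖u‖ ^ 8) (𝓝[>] 0)
      (𝓝 (-1 * V x + gam * ‖u‖ ^ 8)) := by
    refine (Tendsto.mul_const _ ?_).add_const _
    simpa [div_eq_inv_mul] using d.tendsto_slope_zero_right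
  refine le_trans (limsup_le_limsup (v := fun h : ℝ =>
    (((exp (-h) - 1) / h * V x + gam * ‖u‖ ^ 8 : ℝ) : EReal)) ?_) ?_
  · filter_upwards [self_mem_nhdsWithin] with h h0
    exact EReal.coe_le_coe_iff.2 (key h h0)
  · refine ((continuous_coe_real_ereal.tendsto _).comp t1).limsup_eq.le.trans
      (EReal.coe_le_coe_iff.2 ?_)
    linarith [(V2 x).1]

end Pool.Agent.Results.MP_44d715_an.Coercive
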